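import Pool.Agent.Q14.GolH

set_option autoImplicit false

/-!
# MP_811251_al: `2 × 2` permanents of Hankel matrices

Over every field of characteristic different from `2` the rings `k[X]/P₂(X)` are Golod for the
generic `3 × 6` and `4 × 5` Hankel matrices `X`: the ring is `k + t C[t]` with
`C = k[u]/(u⁴) × k[v]/(v⁴)`.
-/

namespace Pool.Agent.Results.MP_811251_al.HankelGolod

open Pool.Agent.Q14.Golod

/-- Question Q1 for Hankel matrices over the field `k`: `k[X]/P₂(X)` is Golod precisely when `X`
is of size `2 × 2`. -/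
def Assertion (k : Type) [Field k] : Prop :=
  ∀ m n : ℕ, 2 ≤ m → 2 ≤ n → (IsGolod (perm2 (hankel k m n)) ↔ m = 2 ∧ n = 2)

theorem result (k : Type) [Field k] (h2 : (2 : k) ≠ 0) :
    IsGolod (perm2 (hankel k 3 6)) ∧ IsGolod (perm2 (hankel k 4 5)) ∧ ¬ Assertion k := by
  refine ⟨golod_three_six h2, golod_four_five h2, fun h => ?_⟩
  have := (h 3 6 (by norm_num) (by norm_num)).1 (golod_three_six h2)
  omega

end Pool.Agent.Results.MP_811251_al.HankelGolod
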